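import Pool.Agent.Helper26.Mah.A4

/-!
# The sharp `L^p` Mahler inequality on average over the position of the body

For every convex body `K` of `ℝⁿ` and every `p ∈ (0, ∞]`,
`∫_{z ∈ K} dz / M_p(K - z) ≤ ((n!)² / (2n+1)!) |K|`,
with equality for `p = ∞` and the simplex: the harmonic mean of the Mahler volumes `M_∞(K - z)` over
the positions `z ∈ K` is minimal for simplices.  In particular the inequality of Mahler's
conjecture (the case `p = ∞`) holds for `K - z` for all `z ∈ K` except for a set of relative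
volume at most `(n+1)^(n+1) n! / (2n+1)!`, which decays like `(e/4)^n`.

Proof.  Let `Q = (K - z)°` and let `D` be the convex hull of `{1} × Q` and `{-1} × (-Q)` in `ℝⁿ⁺¹`.
The symmetric Mahler inequality (library) for `D` and `|D| ≤ 2^(n+1) |Q| / (n+1)` (Rogers and
Shephard) give `2^(n+1) ≤ n! |Q| |D°|`.  The body `D°` consists of the points `(t, y)` with
`y ∈ (1 - t)(K - z)` and `-y ∈ (1 + t)(K - z)`; for fixed `t` the integral over `z` of the volume of
this slice is `((1 - t²)/2)^n |K|²` for every `K`.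
-/

set_option autoImplicit false

noncomputable section

open MeasureTheory
open scoped ENNReal

namespace Pool.Agent.Results.MP_5f4cdd_gt.TypicalPosition

variable {n : ℕ}

/-- convex bodies of `ℝⁿ` -/
def Body (K : Set (Fin n → ℝ)) : Prop :=
  Convex ℝ K ∧ IsCompact K ∧ (interior K).Nonempty

/-- the `L^p` Mahler volume `|L| ∫ exp (-h_{p,L}(y)) dy` for real `p > 0`, where
`exp (-h_{p,L}(y))` is the power `-1/p` of the average of `exp (p ⟨x, y⟩)` over `L` -/
def Mp (p : ℝ) (L : Set (Fin n → ℝ)) : ℝ≥0∞ := volume L *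
  ∫⁻ y : Fin n → ℝ, ENNReal.ofReal
    (((∫ x in L, Real.exp (p * ∑ i, x i * y i)) / (volume L).toReal) ^ (-(1 / p)))

/-- the Mahler volume `|L| ∫ exp (-h_L(y)) dy` (`p = ∞`), with the support function `h_L` -/
def Minf (L : Set (Fin n → ℝ)) : ℝ≥0∞ := volume L *
  ∫⁻ y : Fin n → ℝ, ENNReal.ofReal
    (Real.exp (-(sSup ((fun x : Fin n → ℝ => ∑ i, x i * y i) '' L))))

/-- the position `K - z` of `K` -/
def shift (K : Set (Fin n → ℝ)) (z : Fin n → ℝ) : Set (Fin n → ℝ) := (fun x => x - z) '' K

/-- the standard simplex -/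
def simplex (n : ℕ) : Set (Fin n → ℝ) := {z | (∀ i, 0 ≤ z i) ∧ ∑ i, z i ≤ 1}

/-- **The sharp Mahler inequality on average over the position.** -/
theorem result (n : ℕ) :
    -- (1) the averaged inequality for all bodies and all `p`
    (∀ K : Set (Fin n → ℝ), Body K →
      ∫⁻ z in K, (Minf (shift K z))⁻¹ ≤
        ENNReal.ofReal ((n.factorial : ℝ) ^ 2 / (2 * n + 1).factorial) * volume K ∧
      ∀ p : ℝ, 0 < p → ∫⁻ z in K, (Mp p (shift K z))⁻¹ ≤
        ENNReal.ofReal ((n.factorial : ℝ) ^ 2 / (2 * n + 1).factorial) * volume K) ∧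
    -- (2) equality for the simplex, `p = ∞`
    (∫⁻ z in simplex n, (Minf (shift (simplex n) z))⁻¹ =
        ENNReal.ofReal ((n.factorial : ℝ) ^ 2 / (2 * n + 1).factorial) * volume (simplex n)) ∧
    -- (3) the inequality of Mahler's conjecture holds in all positions `z ∈ K` up to a small set
    (∀ K : Set (Fin n → ℝ), Body K →
      volume {z ∈ K | Minf (shift K z) < ⨅ x ∈ simplex n, Minf (shift (simplex n) x)} ≤
        ENNReal.ofReal (((n : ℝ) + 1) ^ (n + 1) * n.factorial / (2 * n + 1).factorial) *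
          volume K) := by
  refine ⟨fun K hK => ?_, Helper26.Mah.smp_eq n, fun K hK => ?_⟩
  · obtain ⟨hv, hc, hi⟩ := hK
    exact ⟨Helper26.Mah.avg_inf hc hv hi, fun p hp => Helper26.Mah.avg_p hc hv hi hp⟩
  · obtain ⟨hv, hc, hi⟩ := hK
    have h1 : (⨅ x ∈ simplex n, Minf (shift (simplex n) x)) ≤
        ENNReal.ofReal (((n : ℝ) + 1) ^ (n + 1) / n.factorial) := by
      have h2 : Helper73.Twin.cen n ∈ simplex n := interior_subset (Helper73.Twin.cen_interior n)
      refine (iInf₂_le _ h2).trans ?_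
      exact Helper73.Twin.smpc_mahler n
    have hf : (0 : ℝ) < (n.factorial : ℝ) := by exact_mod_cast Nat.factorial_pos _
    have h3 := Helper26.Mah.exceptional hc hv hi
      (c := ((n : ℝ) + 1) ^ (n + 1) / n.factorial) (by positivity) h1
    refine h3.trans (le_of_eq ?_)
    congr 2
    unfold Helper26.Mah.cst
    field_simp

end Pool.Agent.Results.MP_5f4cdd_gt.TypicalPosition

end
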